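import Pool.Agent.W_4f2e6f_h25.T1.Step

/-!
The two cases: a 4-cycle, or a claw in a graph without 4-cycles.
-/

set_option autoImplicit false

namespace Pool.Agent.W_4f2e6f_h25

open Pool.Agent.W_MP_4f2e6f_h52

/-- independent vertices far from four given vertices -/
theorem ex_far {V : Type} [Fintype V] (G : SimpleGraph V) (a : ℕ) (hG : TF G) (hA : AL G a)
    (c : Fin 4 → V) (m : ℕ) (hbig : 4 * (a + 1) + m ^ 2 < Fintype.card V) :
    ∃ g : Fin m → V, Function.Injective g ∧ (∀ i j, ¬ G.Adj (g i) (g j)) ∧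
      ∀ i k, g i ≠ c k ∧ ¬ G.Adj (g i) (c k) := by
  classical
  rcases Nat.eq_zero_or_pos m with rfl | hm
  · exact ⟨fun i => i.elim0, fun i => i.elim0, fun i => i.elim0, fun i => i.elim0⟩
  let B : Finset V := Finset.univ.filter fun x => ∀ k, x ≠ c k ∧ ¬ G.Adj x (c k)
  have hcov : (Finset.univ : Finset V) ⊆ B ∪ (Finset.univ : Finset (Fin 4)).biUnion
      (fun k => insert (c k) (Finset.univ.filter fun x => G.Adj (c k) x)) := by
    intro x _
    rw [Finset.mem_union, Finset.mem_biUnion]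
    by_cases hx : ∀ k, x ≠ c k ∧ ¬ G.Adj x (c k)
    · exact Or.inl (Finset.mem_filter.2 ⟨Finset.mem_univ _, hx⟩)
    · right
      push Not at hx
      obtain ⟨k, hk⟩ := hx
      refine ⟨k, Finset.mem_univ _, ?_⟩
      rw [Finset.mem_insert, Finset.mem_filter]
      by_cases hxk : x = c k
      · exact Or.inl hxk
      · exact Or.inr ⟨Finset.mem_univ _, G.adj_symm (hk hxk)⟩
  have hN : ∀ k, (insert (c k) (Finset.univ.filter fun x => G.Adj (c k) x)).card ≤ a + 1 := by
    intro k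
    have h1 : (Finset.univ.filter fun x => G.Adj (c k) x).card ≤ a := by
      apply hA
      intro x hx y hy hxy
      rw [Finset.mem_filter] at hx hy
      exact hG _ _ _ hx.2 hxy hy.2
    exact le_trans (Finset.card_insert_le _ _) (by omega)
  have h1 := Finset.card_le_card hcov
  have h2 := Finset.card_union_le B ((Finset.univ : Finset (Fin 4)).biUnion
      (fun k => insert (c k) (Finset.univ.filter fun x => G.Adj (c k) x)))
  have h3 : ((Finset.univ : Finset (Fin 4)).biUnion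
      (fun k => insert (c k) (Finset.univ.filter fun x => G.Adj (c k) x))).card ≤ 4 * (a + 1) := by
    have := Finset.card_biUnion_le_card_mul (Finset.univ : Finset (Fin 4))
      (fun k => insert (c k) (Finset.univ.filter fun x => G.Adj (c k) x)) (a + 1) (fun k _ => hN k)
    rw [Finset.card_univ, Fintype.card_fin] at this
    exact this
  rw [Finset.card_univ] at h1
  have h4 : m ^ 2 < B.card := by omega
  obtain ⟨S, hS, hSm⟩ : ∃ S : Finset {x // x ∈ B}, Ind (G.comap Subtype.val) S ∧ m ≤ S.card := by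
    by_contra hcon
    push Not at hcon
    have h5 := bound (m - 1) {x // x ∈ B} (G.comap Subtype.val) (TF_comap _ _ hG) (by
      intro S hS
      have := hcon S hS
      omega)
    rw [Fintype.card_coe, Nat.sub_add_cancel hm] at h5
    omega
  obtain ⟨e⟩ : Nonempty (Fin m ↪ S) := by
    apply Function.Embedding.nonempty_of_card_le
    rw [Fintype.card_fin, Fintype.card_coe]
    exact hSm
  refine ⟨fun i => (e i).1.1, ?_, ?_, ?_⟩
  · intro i j hij
    exact e.injective (Subtype.ext (Subtype.ext hij))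
  · intro i j hij
    exact hS _ (e i).2 _ (e j).2 hij
  · intro i k
    exact (Finset.mem_filter.1 (e i).1.2).2 k

section

variable {V W : Type} [Fintype V] [Fintype W]

theorem case_cycle (G : SimpleGraph V) (H : SimpleGraph W) (a b : ℕ) (hG : TF G) (hA : AL G a)
    (hH : TF H) (hB : AL H b) (c : Fin 4 → V) (u v : W)
    (hc : Function.Injective c) (huv : H.Adj u v)
    (h01 : G.Adj (c 0) (c 1)) (h02 : G.Adj (c 0) (c 2))
    (h13 : G.Adj (c 1) (c 3)) (h23 : G.Adj (c 2) (c 3))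
    (m : ℕ) (g : Fin m → V) (h : Fin m → W) (hg : Function.Injective g)
    (hh : Function.Injective h) (hgg : ∀ i j, ¬ G.Adj (g i) (g j))
    (hhh : ∀ i j, ¬ H.Adj (h i) (h j)) (hgc : ∀ i k, g i ≠ c k ∧ ¬ G.Adj (g i) (c k))
    (hhu : ∀ i, h i ≠ u ∧ h i ≠ v ∧ ¬ H.Adj u (h i) ∧ ¬ H.Adj v (h i)) :
    Good (Fintype.card V + Fintype.card W + 2 + m) (a + b + 1) := by
  refine newG_good G H c u v gadBC a b hG hA hH hB hc huv ?_ ?_ m g h hg hh hgg hhh hgc hhu
  · rintro (x | y) _
    · have n := notH G H c u v x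
      refine ⟨Or.inr n, fun h => n (Or.inl h.1), ?_, ?_, ?_, ?_⟩
      · rw [trG0, trG1]; exact fun h => hG _ _ _ h.1 h01 h.2
      · rw [trG0, trG2]; exact fun h => hG _ _ _ h.1 h02 h.2
      · rw [trG1, trG3]; exact fun h => hG _ _ _ h.1 h13 h.2
      · rw [trG2, trG3]; exact fun h => hG _ _ _ h.1 h23 h.2
    · have n := notG G H c u v y
      refine ⟨Or.inl n, ?_, fun h => n (Or.inl h.1), fun h => n (Or.inl h.1),
        fun h => n (Or.inr (Or.inl h.1)), fun h => n (Or.inr (Or.inr (Or.inl h.1)))⟩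
      rw [trH4, trH5]; exact fun h => hH _ _ _ h.1 huv h.2
  · rintro I ⟨t45, t01, t02, t13, t23⟩ i hi j hj hij
    have a03 : ¬ G.Adj (c 0) (c 3) := hG _ _ _ h01 h13
    have a30 : ¬ G.Adj (c 3) (c 0) := fun h => a03 (G.adj_symm h)
    have a12 : ¬ G.Adj (c 1) (c 2) := hG _ _ _ (G.adj_symm h01) h02
    have a21 : ¬ G.Adj (c 2) (c 1) := fun h => a12 (G.adj_symm h)
    fin_cases i <;> fin_cases j <;>
      simp only [Fin.zero_eta, Fin.mk_one, Fin.reduceFinMk] at hi hj hij <;>
      first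
        | exact G.loopless.irrefl _ hij
        | exact H.loopless.irrefl _ hij
        | exact t01 ⟨hi, hj⟩
        | exact t01 ⟨hj, hi⟩
        | exact t02 ⟨hi, hj⟩
        | exact t02 ⟨hj, hi⟩
        | exact t13 ⟨hi, hj⟩
        | exact t13 ⟨hj, hi⟩
        | exact t23 ⟨hi, hj⟩
        | exact t23 ⟨hj, hi⟩
        | exact t45 ⟨hi, hj⟩
        | exact t45 ⟨hj, hi⟩
        | exact a03 hij
        | exact a30 hij
        | exact a12 hij
        | exact a21 hij
        | exact hij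

theorem case_star (G : SimpleGraph V) (H : SimpleGraph W) (a b : ℕ) (hG : TF G) (hA : AL G a)
    (hH : TF H) (hB : AL H b) (c : Fin 4 → V) (u v : W)
    (hc : Function.Injective c) (huv : H.Adj u v)
    (h01 : G.Adj (c 0) (c 1)) (h02 : G.Adj (c 0) (c 2)) (h03 : G.Adj (c 0) (c 3))
    (hno : ∀ w, w ∉ Set.range c → ∀ i j : Fin 4, i ≠ j → i ≠ 0 → j ≠ 0 →
      ¬ (G.Adj w (c i) ∧ G.Adj w (c j)))
    (m : ℕ) (g : Fin m → V) (h : Fin m → W) (hg : Function.Injective g)
    (hh : Function.Injective h) (hgg : ∀ i j, ¬ G.Adj (g i) (g j))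
    (hhh : ∀ i j, ¬ H.Adj (h i) (h j)) (hgc : ∀ i k, g i ≠ c k ∧ ¬ G.Adj (g i) (c k))
    (hhu : ∀ i, h i ≠ u ∧ h i ≠ v ∧ ¬ H.Adj u (h i) ∧ ¬ H.Adj v (h i)) :
    Good (Fintype.card V + Fintype.card W + 2 + m) (a + b + 1) := by
  refine newG_good G H c u v gadBS a b hG hA hH hB hc huv ?_ ?_ m g h hg hh hgg hhh hgc hhu
  · rintro (x | y) hr
    · have n := notH G H c u v x
      have hx : x ∉ Set.range c := by
        rintro ⟨k, rfl⟩
        exact hr (mem_core c u v k)
      refine ⟨Or.inr n, fun h => n (Or.inl h.1), ?_, ?_, ?_, ?_, ?_, ?_⟩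
      · rw [trG0, trG1]; exact fun h => hG _ _ _ h.1 h01 h.2
      · rw [trG0, trG2]; exact fun h => hG _ _ _ h.1 h02 h.2
      · rw [trG0, trG3]; exact fun h => hG _ _ _ h.1 h03 h.2
      · rw [trG1, trG2]; exact hno x hx 1 2 (by decide) (by decide) (by decide)
      · rw [trG1, trG3]; exact hno x hx 1 3 (by decide) (by decide) (by decide)
      · rw [trG2, trG3]; exact hno x hx 2 3 (by decide) (by decide) (by decide)
    · have n := notG G H c u v y
      refine ⟨Or.inl n, ?_, fun h => n (Or.inl h.1), fun h => n (Or.inl h.1),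
        fun h => n (Or.inl h.1), fun h => n (Or.inr (Or.inl h.1)),
        fun h => n (Or.inr (Or.inl h.1)), fun h => n (Or.inr (Or.inr (Or.inl h.1)))⟩
      rw [trH4, trH5]; exact fun h => hH _ _ _ h.1 huv h.2
  · rintro I ⟨t45, t01, t02, t03⟩ i hi j hj hij
    have a12 : ¬ G.Adj (c 1) (c 2) := hG _ _ _ (G.adj_symm h01) h02
    have a13 : ¬ G.Adj (c 1) (c 3) := hG _ _ _ (G.adj_symm h01) h03
    have a23 : ¬ G.Adj (c 2) (c 3) := hG _ _ _ (G.adj_symm h02) h03
    have a21 : ¬ G.Adj (c 2) (c 1) := fun h => a12 (G.adj_symm h)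
    have a31 : ¬ G.Adj (c 3) (c 1) := fun h => a13 (G.adj_symm h)
    have a32 : ¬ G.Adj (c 3) (c 2) := fun h => a23 (G.adj_symm h)
    fin_cases i <;> fin_cases j <;>
      simp only [Fin.zero_eta, Fin.mk_one, Fin.reduceFinMk] at hi hj hij <;>
      first
        | exact G.loopless.irrefl _ hij
        | exact H.loopless.irrefl _ hij
        | exact t01 ⟨hi, hj⟩
        | exact t01 ⟨hj, hi⟩
        | exact t02 ⟨hi, hj⟩
        | exact t02 ⟨hj, hi⟩
        | exact t03 ⟨hi, hj⟩
        | exact t03 ⟨hj, hi⟩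
        | exact t45 ⟨hi, hj⟩
        | exact t45 ⟨hj, hi⟩
        | exact a12 hij
        | exact a21 hij
        | exact a13 hij
        | exact a31 hij
        | exact a23 hij
        | exact a32 hij
        | exact hij

/-- the step: any graph `G`, and a graph `H` with an edge `uv` and `m` independent vertices far
from it -/
theorem stepT (G : SimpleGraph V) (H : SimpleGraph W) (a b : ℕ) (hG : TF G) (hA : AL G a)
    (hH : TF H) (hB : AL H b) (hcard : 6 ≤ Fintype.card V) (u v : W) (huv : H.Adj u v)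
    (m : ℕ) (hbig : 4 * (a + 1) + m ^ 2 < Fintype.card V) (h : Fin m → W)
    (hh : Function.Injective h) (hhh : ∀ i j, ¬ H.Adj (h i) (h j))
    (hhu : ∀ i, h i ≠ u ∧ h i ≠ v ∧ ¬ H.Adj u (h i) ∧ ¬ H.Adj v (h i)) :
    Good (Fintype.card V + Fintype.card W + 2 + m) (a + b + 1) := by
  classical
  obtain ⟨M, hGM, hM, hd⟩ := exists_max G hG
  have hMA : AL M a := by
    intro S hS
    apply hA
    intro x hx y hy hxy
    exact hS x hx y hy (hGM hxy)
  by_cases h4 : ∃ x y z t, M.Adj x y ∧ M.Adj x z ∧ M.Adj y t ∧ M.Adj z t ∧ x ≠ t ∧ y ≠ z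
  · obtain ⟨x, y, z, t, hxy, hxz, hyt, hzt, hxt, hyz⟩ := h4
    have hc : Function.Injective (![x, y, z, t] : Fin 4 → V) :=
      inj4 (M.ne_of_adj hxy) (M.ne_of_adj hxz) hxt hyz (M.ne_of_adj hyt) (M.ne_of_adj hzt)
    obtain ⟨g, hg, hgg, hgc⟩ := ex_far M a hM hMA ![x, y, z, t] m hbig
    exact case_cycle M H a b hM hMA hH hB ![x, y, z, t] u v hc huv hxy hxz hyt hzt m g h hg hh hgg
      hhh hgc hhu
  · push Not at h4
    obtain ⟨w, v1, v2, v3, a1, a2, a3, n12, n13, n23⟩ := exists_deg3 M hcard hd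
    have hc : Function.Injective (![w, v1, v2, v3] : Fin 4 → V) :=
      inj4 (M.ne_of_adj a1) (M.ne_of_adj a2) (M.ne_of_adj a3) n12 n13 n23
    have hv : ∀ i : Fin 4, i ≠ 0 → M.Adj w ((![w, v1, v2, v3] : Fin 4 → V) i) := by
      intro i hi
      fin_cases i
      · exact absurd rfl hi
      · exact a1
      · exact a2
      · exact a3
    obtain ⟨g, hg, hgg, hgc⟩ := ex_far M a hM hMA ![w, v1, v2, v3] m hbig
    refine case_star M H a b hM hMA hH hB ![w, v1, v2, v3] u v hc huv a1 a2 a3 ?_ m g h hg hh hgg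
      hhh hgc hhu
    intro u' hu i j hij hi hj ⟨hui, huj⟩
    have hwu : w ≠ u' := fun h => hu ⟨0, h⟩
    exact hij (hc (h4 w _ _ u' (hv i hi) (hv j hj) (M.adj_symm hui) (M.adj_symm huj) hwu))

end

end Pool.Agent.W_4f2e6f_h25
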