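import Pool.Agent.W_4f2e6f_h25.Chk

/-!
The double gadget: in the disjoint union of two triangle-free graphs `G` and `H`, a 4-cycle (or a claw
without 4-cycles) of `G` together with an edge of `H` is replaced by eight vertices; the independence
number does not increase.
-/

set_option autoImplicit false

namespace Pool.Agent.W_4f2e6f_h25

open Pool.Agent.W_MP_4f2e6f_h52

/-- the disjoint union -/
def dsum {V W : Type*} (G : SimpleGraph V) (H : SimpleGraph W) : SimpleGraph (V ⊕ W) where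
  Adj x y := match x, y with
    | Sum.inl a, Sum.inl b => G.Adj a b
    | Sum.inr a, Sum.inr b => H.Adj a b
    | _, _ => False
  symm := by
    refine ⟨?_⟩
    rintro (a | a) (b | b) h
    · exact G.adj_symm h
    · exact h
    · exact h
    · exact H.adj_symm h
  loopless := by
    refine ⟨?_⟩
    rintro (a | a) h
    · exact G.loopless.irrefl _ h
    · exact H.loopless.irrefl _ h

theorem dsum_AL {V W : Type*} (G : SimpleGraph V) (H : SimpleGraph W) (a b : ℕ) (hG : AL G a)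
    (hH : AL H b) : AL (dsum G H) (a + b) := by
  classical
  intro S hS
  have h1 : S.toLeft.card ≤ a := hG _ (by
    intro x hx y hy h
    rw [Finset.mem_toLeft] at hx hy
    exact hS _ hx _ hy h)
  have h2 : S.toRight.card ≤ b := hH _ (by
    intro x hx y hy h
    rw [Finset.mem_toRight] at hx hy
    exact hS _ hx _ hy h)
  have := Finset.card_toLeft_add_card_toRight (u := S)
  omega

theorem dsum_TF {V W : Type*} (G : SimpleGraph V) (H : SimpleGraph W) (hG : TF G)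
    (hH : TF H) : TF (dsum G H) := by
  rintro (a | a) (b | b) (c | c) h1 h2 h3
  · exact hG _ _ _ h1 h2 h3
  · exact h2
  · exact h1
  · exact h1
  · exact h1
  · exact h1
  · exact h2
  · exact hH _ _ _ h1 h2 h3

/-- `graph'_TF` with mixed attachments -/
theorem graph'_TF2 {V : Type*} (G : SimpleGraph V) {p q : ℕ} (c : Fin p → V) (hG : TF G)
    (E : SimpleGraph (Fin q)) (hit : Fin q → Finset (Fin p) → Prop)
    (types : Finset (Fin p) → Prop) (mix : Finset (Fin p) → Finset (Fin p) → Prop) (hE : TF E)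
    (h4 : ∀ w, w ∉ Set.range c → types (tr G c w))
    (hm : ∀ w w', G.Adj w w' → ¬ mix (tr G c w) (tr G c w'))
    (h1 : ∀ x A B, types A → types B → hit x A → hit x B → (∃ i, i ∈ A ∧ i ∈ B) ∨ mix A B)
    (h2 : ∀ x y A, types A → E.Adj x y → hit x A → ¬ hit y A) :
    TF (graph' G c E hit) := by
  have key1 : ∀ (w w' : {v : V // v ∉ Set.range c}) (x : Fin q), G.Adj w.1 w'.1 →
      hit x (tr G c w.1) → hit x (tr G c w'.1) → False := by
    intro w w' x h hx hx'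
    rcases h1 x _ _ (h4 _ w.2) (h4 _ w'.2) hx hx' with ⟨i, hi, hi'⟩ | hmx
    · rw [mem_tr] at hi hi'
      exact hG _ _ _ h hi' hi
    · exact hm _ _ h hmx
  rintro (u | x) (v | y) (w | z) h1' h2' h3'
  · exact hG _ _ _ h1' h2' h3'
  · exact key1 u v z h1' h3' h2'
  · exact key1 u w y h3' h1' h2'
  · exact h2 y z _ (h4 _ u.2) h2' h1' h3'
  · exact key1 v w x h2' h1' h3'
  · exact h2 x z _ (h4 _ v.2) h3' h1' h2'
  · exact h2 x y _ (h4 _ w.2) h1' h3' h2'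
  · exact hE _ _ _ h1' h2' h3'

/-- `h3_gen` for cores of any size -/
theorem h3_gen2 (p q K : ℕ) (adj : ℕ → ℕ) (cs : List (ℕ × List ℕ)) (E : SimpleGraph (Fin q))
    (hE : ∀ x y : Fin q, (adj x).testBit y = true → E.Adj x y)
    (hm : Finset (Fin p) → ℕ) (types P : Finset (Fin p) → Prop)
    (hcs : ∀ r ∈ cs, ∃ I : Finset (Fin p), P I ∧ r.1 = I.card ∧
      ∀ A, types A → (∃ i ∈ I, i ∈ A) → hm A ∈ r.2)
    (hgo : go adj (tst K cs) q 0 0 0 = true) (S : Finset (Fin q)) (hS : Ind E S) :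
    ∃ I : Finset (Fin p), P I ∧ S.card ≤ I.card + K ∧
      ∀ i ∈ I, ∀ A, types A → i ∈ A → ∃ x ∈ S, (hm A).testBit x = true := by
  have h := go_sound adj (tst K cs) (ind S) (by
    intro k j hjk hk hj
    rw [ind_iff] at hk hj
    obtain ⟨hk1, hk2⟩ := hk
    obtain ⟨hj1, hj2⟩ := hj
    by_contra hcon
    rw [Bool.not_eq_false] at hcon
    exact hS _ hk2 _ hj2 (hE ⟨k, hk1⟩ ⟨j, hj1⟩ hcon)) q 0 hgo
  rw [zero_add, cnt_ind, tst, List.any_eq_true] at h
  obtain ⟨p, hp, h⟩ := h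
  rw [Bool.and_eq_true, Nat.ble_eq, List.all_eq_true] at h
  obtain ⟨I, hPI, hI, hcov⟩ := hcs p hp
  refine ⟨I, hPI, by rw [← hI]; exact h.1, ?_⟩
  intro i hi A hA hiA
  have h1 := h.2 _ (hcov A hA ⟨i, hi, hiA⟩)
  rw [Bool.not_eq_true'] at h1
  have h2 : Nat.land (hm A) (mk (ind S) q) ≠ 0 := by
    intro h0
    rw [h0] at h1
    exact absurd h1 (by decide)
  obtain ⟨j, hj⟩ := Nat.exists_testBit_of_ne_zero h2
  have hj' : ((hm A) &&& (mk (ind S) q)).testBit j = true := hj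
  rw [Nat.testBit_land, Bool.and_eq_true, mk_testBit, Bool.and_eq_true, decide_eq_true_eq,
    ind_iff] at hj'
  obtain ⟨h4, h5, h6, h7⟩ := hj'
  exact ⟨⟨j, h6⟩, h7, h4⟩

/-- the code of a trace -/
def codeB (A : Finset (Fin 6)) : ℕ :=
  (if (0 : Fin 6) ∈ A then 1 else 0) + (if (1 : Fin 6) ∈ A then 2 else 0) +
    (if (2 : Fin 6) ∈ A then 4 else 0) + (if (3 : Fin 6) ∈ A then 8 else 0) +
    (if (4 : Fin 6) ∈ A then 16 else 0) + (if (5 : Fin 6) ∈ A then 32 else 0)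

def hmB (tbl : List ℕ) (A : Finset (Fin 6)) : ℕ := tbl.getD (codeB A) 0

def hitB (tbl : List ℕ) (x : Fin 8) (A : Finset (Fin 6)) : Prop := (hmB tbl A).testBit x = true

def inG (A : Finset (Fin 6)) : Prop := 0 ∈ A ∨ 1 ∈ A ∨ 2 ∈ A ∨ 3 ∈ A
def inH (A : Finset (Fin 6)) : Prop := 4 ∈ A ∨ 5 ∈ A
def mixB (A B : Finset (Fin 6)) : Prop := (inG A ∧ inH B) ∨ (inH A ∧ inG B)

/-- types of traces, 4-cycle and edge -/
def tyC (A : Finset (Fin 6)) : Prop :=
  (¬ inG A ∨ ¬ inH A) ∧ ¬ (4 ∈ A ∧ 5 ∈ A) ∧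
  ¬ (0 ∈ A ∧ 1 ∈ A) ∧ ¬ (0 ∈ A ∧ 2 ∈ A) ∧ ¬ (1 ∈ A ∧ 3 ∈ A) ∧ ¬ (2 ∈ A ∧ 3 ∈ A)

/-- independent sets of the 4-cycle and the edge -/
def inC (A : Finset (Fin 6)) : Prop :=
  ¬ (4 ∈ A ∧ 5 ∈ A) ∧
  ¬ (0 ∈ A ∧ 1 ∈ A) ∧ ¬ (0 ∈ A ∧ 2 ∈ A) ∧ ¬ (1 ∈ A ∧ 3 ∈ A) ∧ ¬ (2 ∈ A ∧ 3 ∈ A)

/-- types of traces, claw and edge -/
def tyS (A : Finset (Fin 6)) : Prop :=
  (¬ inG A ∨ ¬ inH A) ∧ ¬ (4 ∈ A ∧ 5 ∈ A) ∧
  ¬ (0 ∈ A ∧ 1 ∈ A) ∧ ¬ (0 ∈ A ∧ 2 ∈ A) ∧ ¬ (0 ∈ A ∧ 3 ∈ A) ∧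
  ¬ (1 ∈ A ∧ 2 ∈ A) ∧ ¬ (1 ∈ A ∧ 3 ∈ A) ∧ ¬ (2 ∈ A ∧ 3 ∈ A)

/-- independent sets of the claw and the edge -/
def inS (A : Finset (Fin 6)) : Prop :=
  ¬ (4 ∈ A ∧ 5 ∈ A) ∧
  ¬ (0 ∈ A ∧ 1 ∈ A) ∧ ¬ (0 ∈ A ∧ 2 ∈ A) ∧ ¬ (0 ∈ A ∧ 3 ∈ A)

instance : DecidablePred inG := fun A => by unfold inG; infer_instance
instance : DecidablePred inH := fun A => by unfold inH; infer_instance
instance (A B : Finset (Fin 6)) : Decidable (mixB A B) := by unfold mixB; infer_instance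
/-- no triangle arises -/
def okB (A B : Finset (Fin 6)) : Prop := (∃ i, i ∈ A ∧ i ∈ B) ∨ mixB A B
instance (A B : Finset (Fin 6)) : Decidable (okB A B) := by unfold okB; infer_instance

/-- the first condition for one pair of types -/
def c1B (tbl : List ℕ) (A B : Finset (Fin 6)) : Prop :=
  ∀ x : Fin 8, (hmB tbl A).testBit x = true → (hmB tbl B).testBit x = true → okB A B
instance (tbl : List ℕ) (A B : Finset (Fin 6)) : Decidable (c1B tbl A B) := by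
  unfold c1B; infer_instance

instance : DecidablePred tyC := fun A => by unfold tyC; infer_instance
instance : DecidablePred inC := fun A => by unfold inC; infer_instance
instance : DecidablePred tyS := fun A => by unfold tyS; infer_instance
instance : DecidablePred inS := fun A => by unfold inS; infer_instance

/-- the data of a double gadget -/
structure GadB (adj : ℕ → ℕ) (cs : List (ℕ × List ℕ)) (tbl : List ℕ)
    (types P : Finset (Fin 6) → Prop) : Prop where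
  hs : ∀ x y : Fin 8, (adj x).testBit y = (adj y).testBit x
  hl : ∀ x : Fin 8, (adj x).testBit x = false
  tf : ∀ a b c : Fin 8, (adj a).testBit b = true → (adj b).testBit c = true →
    (adj a).testBit c = false
  c1 : ∀ A, types A → ∀ B, types B → c1B tbl A B
  c2 : ∀ A, types A → ∀ x y : Fin 8, (adj x).testBit y = true →
    (hmB tbl A).testBit x = true → (hmB tbl A).testBit y = false
  c3 : ∀ x : Fin 8, (hmB tbl ∅).testBit x = false
  hcs : ∀ r ∈ cs, ∃ I : Finset (Fin 6), P I ∧ r.1 = I.card ∧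
    ∀ A, types A → (∃ i ∈ I, i ∈ A) → hmB tbl A ∈ r.2
  hgo : go adj (tst 0 cs) 8 0 0 0 = true

def adjC (k : ℕ) : ℕ := [50, 137, 56, 70, 133, 69, 168, 82].getD k 0
def tblC : List ℕ := [0, 80, 132, 0, 9, 0, 133, 0, 34, 50, 0, 0, 0, 0, 0, 0, 137, 0, 0, 0, 0, 0, 0, 0, 0, 0, 0, 0, 0, 0, 0, 0, 66, 0, 0, 0, 0, 0, 0, 0, 0, 0, 0, 0, 0, 0, 0, 0, 0, 0, 0, 0, 0, 0, 0, 0, 0, 0, 0, 0, 0, 0, 0, 0]
def csC : List (ℕ × List ℕ) := [(0, []), (1, [137]), (1, [66]), (1, [80, 50]), (2, [80, 50, 137]), (2, [80, 50, 66]), (1, [132, 133]), (2, [132, 133, 137]), (2, [132, 133, 66]), (1, [9, 133]), (2, [9, 133, 137]), (2, [9, 133, 66]), (1, [34, 50]), (2, [34, 50, 137]), (2, [34, 50, 66]), (2, [80, 34, 50]), (3, [80, 34, 50, 137]), (3, [80, 34, 50, 66]), (2, [132, 9, 133]), (3, [132, 9, 133, 137]), (3, [132, 9, 133, 66])]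

def adjS (k : ℕ) : ℕ := [198, 25, 17, 34, 38, 152, 1, 33].getD k 0
def tblS : List ℕ := [0, 33, 12, 0, 80, 0, 0, 0, 130, 0, 0, 0, 0, 0, 0, 0, 38, 0, 0, 0, 0, 0, 0, 0, 0, 0, 0, 0, 0, 0, 0, 0, 216, 0, 0, 0, 0, 0, 0, 0, 0, 0, 0, 0, 0, 0, 0, 0, 0, 0, 0, 0, 0, 0, 0, 0, 0, 0, 0, 0, 0, 0, 0, 0]
def csS : List (ℕ × List ℕ) := [(0, []), (1, [38]), (1, [216]), (1, [12]), (2, [12, 38]), (2, [12, 216]), (1, [80]), (2, [80, 38]), (2, [80, 216]), (1, [130]), (2, [130, 38]), (2, [130, 216]), (1, [33]), (2, [33, 38]), (2, [33, 216]), (2, [12, 80]), (3, [12, 80, 38]), (3, [12, 80, 216]), (2, [12, 130]), (3, [12, 130, 38]), (3, [12, 130, 216]), (2, [80, 130]), (3, [80, 130, 38]), (3, [80, 130, 216]), (3, [12, 80, 130]), (4, [12, 80, 130, 38]), (4, [12, 80, 130, 216])]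


theorem gadBC : GadB adjC csC tblC tyC inC where
  hs := by decide +kernel
  hl := by decide +kernel
  tf := by decide +kernel
  c1 := by decide +kernel
  c2 := by decide +kernel
  c3 := by decide +kernel
  hcs := by decide +kernel
  hgo := by decide +kernel

theorem gadBS : GadB adjS csS tblS tyS inS where
  hs := by decide +kernel
  hl := by decide +kernel
  tf := by decide +kernel
  c1 := by decide +kernel
  c2 := by decide +kernel
  c3 := by decide +kernel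
  hcs := by decide +kernel
  hgo := by decide +kernel

end Pool.Agent.W_4f2e6f_h25
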