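import Pool.Agent.W_4f2e6f_h25.Main

/-!
Independent vertices far from four given ones, and the lower bound for `R(3,s)` which gives room for
them.
-/

set_option autoImplicit false

namespace Pool.Agent.W_4f2e6f_h25

open Pool.Agent.W_MP_4f2e6f_h52

theorem far {V : Type} [Fintype V] (G : SimpleGraph V) (a k : ℕ) (hG : TF G) (hA : AL G a)
    (X : Fin 4 → V) (hcard : 4 * a + 4 + k ^ 2 < Fintype.card V) :
    ∃ g : Fin k → V, Function.Injective g ∧ (∀ i j, ¬ G.Adj (g i) (g j)) ∧
      ∀ i j, g i ≠ X j ∧ ¬ G.Adj (X j) (g i) := by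
  classical
  -- the closed neighbourhoods
  let N : Fin 4 → Finset V := fun j => insert (X j) (Finset.univ.filter fun v => G.Adj (X j) v)
  have hN : ∀ j, (N j).card ≤ a + 1 := by
    intro j
    refine (Finset.card_insert_le _ _).trans ?_
    have := hA (Finset.univ.filter fun v => G.Adj (X j) v) (by
      intro x hx y hy hxy
      rw [Finset.mem_filter] at hx hy
      exact hG _ _ _ hx.2 hxy hy.2)
    omega
  let B : Finset V := Finset.univ \ Finset.univ.biUnion N
  have hB : k ^ 2 < B.card := by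
    have h1 : (Finset.univ.biUnion N).card ≤ 4 * (a + 1) := by
      have := Finset.card_biUnion_le (s := (Finset.univ : Finset (Fin 4))) (t := N)
      refine this.trans ?_
      have h2 : ∑ j : Fin 4, (N j).card ≤ ∑ _j : Fin 4, (a + 1) :=
        Finset.sum_le_sum fun j _ => hN j
      simpa using h2
    have h3 : B.card + (Finset.univ.biUnion N).card = Fintype.card V := by
      have := Finset.card_sdiff_add_card_eq_card (Finset.subset_univ (Finset.univ.biUnion N))
      rw [Finset.card_univ] at this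
      exact this
    omega
  have hBmem : ∀ v ∈ B, ∀ j, v ≠ X j ∧ ¬ G.Adj (X j) v := by
    intro v hv j
    have h1 : v ∉ Finset.univ.biUnion N := (Finset.mem_sdiff.1 hv).2
    have h2 : v ∉ N j := fun h => h1 (Finset.mem_biUnion.2 ⟨j, Finset.mem_univ _, h⟩)
    constructor
    · intro e
      exact h2 (Finset.mem_insert.2 (Or.inl e))
    · intro e
      exact h2 (Finset.mem_insert.2 (Or.inr (Finset.mem_filter.2 ⟨Finset.mem_univ _, e⟩)))
  rcases Nat.eq_zero_or_pos k with rfl | hk
  · exact ⟨fun i => i.elim0, fun i => i.elim0, fun i => i.elim0, fun i => i.elim0⟩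
  -- a large independent subset of `B`
  have hex : ∃ S : Finset V, S ⊆ B ∧ Ind G S ∧ k ≤ S.card := by
    by_contra hcon
    push Not at hcon
    have hb := bound (k - 1) {x // x ∈ B} (G.comap (fun x : {x // x ∈ B} => (x : V)))
      (TF_comap G _ hG) (by
        intro S hS
        have hlt := hcon (S.map (Function.Embedding.subtype _)) (by
          intro x hx
          rw [Finset.mem_map] at hx
          obtain ⟨y, -, rfl⟩ := hx
          exact y.2) (by
          intro x hx y hy hxy
          rw [Finset.mem_map] at hx hy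
          obtain ⟨x', hx', rfl⟩ := hx
          obtain ⟨y', hy', rfl⟩ := hy
          exact hS x' hx' y' hy' hxy)
        rw [Finset.card_map] at hlt
        omega)
    rw [Fintype.card_coe] at hb
    have e : k - 1 + 1 = k := by omega
    rw [e] at hb
    omega
  obtain ⟨S, hSB, hS, hcS⟩ := hex
  obtain ⟨T, hTS, hT⟩ := Finset.exists_subset_card_eq hcS
  refine ⟨fun i => ((T.equivFinOfCardEq hT).symm i : V), ?_, ?_, ?_⟩
  · intro i j hij
    exact (T.equivFinOfCardEq hT).symm.injective (Subtype.ext hij)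
  · intro i j
    exact hS _ (hTS ((T.equivFinOfCardEq hT).symm i).2) _ (hTS ((T.equivFinOfCardEq hT).symm j).2)
  · intro i j
    exact hBmem _ (hSB (hTS ((T.equivFinOfCardEq hT).symm i).2)) j

theorem rlb (R : ℕ → ℕ) (hR : ∀ t : ℕ, R t = sInf {n : ℕ | ∀ G : SimpleGraph (Fin n),
    ¬ G.CliqueFree 3 ∨ ¬ Gᶜ.CliqueFree t}) (K s : ℕ) (hs : 2 * K ^ 2 + 20 ≤ s) :
    4 * (s - 1) + 4 + (K - 1) ^ 2 < R s - 1 := by
  have hset : ∀ t n : ℕ, n ∈ {n : ℕ | ∀ G : SimpleGraph (Fin n),
      ¬ G.CliqueFree 3 ∨ ¬ Gᶜ.CliqueFree t} ↔ ¬ Good n t := by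
    intro t n
    rw [Set.mem_setOf_eq, Good]
    push Not
    exact forall_congr' fun G => imp_iff_not_or.symm
  have h6 : 6 < R 4 := by
    by_contra hlt
    push Not at hlt
    have hne : {n : ℕ | ∀ G : SimpleGraph (Fin n),
        ¬ G.CliqueFree 3 ∨ ¬ Gᶜ.CliqueFree 4}.Nonempty := by
      obtain ⟨N, hN⟩ := not_good_large 4
      exact ⟨N, (hset 4 N).2 hN⟩
    have hmem := Nat.sInf_mem hne
    rw [← hR 4] at hmem
    exact (hset 4 _).1 hmem (good_mono good_6_4 hlt)
  obtain ⟨m, rfl⟩ : ∃ m, s = 4 + m := ⟨s - 4, by omega⟩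
  have h := windows R hR 4 le_rfl m
  have h2 : R 4 + 29 * m / 6 ≤ R (4 + m) + 1 := by
    refine h.trans ?_
    split_ifs <;> omega
  have h3 : (K - 1) ^ 2 ≤ K ^ 2 := Nat.pow_le_pow_left (Nat.sub_le _ _) 2
  omega

end Pool.Agent.W_4f2e6f_h25
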