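import Pool.Agent.W_MP_4f2e6f_h52.Ram

/-!
An edge-minimal triangle-free graph without independent sets of size `K + 1`: an edge and `K - 1`
independent vertices far from it.
-/

set_option autoImplicit false

namespace Pool.Agent.W_4f2e6f_h25

open Pool.Agent.W_MP_4f2e6f_h52

theorem hmin (K N : ℕ) (hK : 1 ≤ K) (hg : Good N (K + 1)) (hN : K < N) :
    ∃ (H : SimpleGraph (Fin N)) (u v : Fin N) (h : Fin (K - 1) → Fin N), TF H ∧ AL H K ∧
      H.Adj u v ∧ Function.Injective h ∧ (∀ i j, ¬ H.Adj (h i) (h j)) ∧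
      (∀ i, h i ≠ u ∧ h i ≠ v ∧ ¬ H.Adj u (h i) ∧ ¬ H.Adj v (h i)) := by
  classical
  obtain ⟨H0, h1, h2⟩ := hg
  obtain ⟨H, hm0⟩ := Set.Finite.exists_minimal
    (Set.toFinite {H : SimpleGraph (Fin N) | TF H ∧ AL H K})
    ⟨H0, (TF_iff _).1 h1, (AL_iff _ _).1 h2⟩
  obtain ⟨⟨hH, hB⟩, hlow⟩ := hm0
  -- an edge
  have hedge : ∃ u v, H.Adj u v := by
    by_contra hcon
    push Not at hcon
    have := hB Finset.univ (fun x _ y _ => hcon x y)
    rw [Finset.card_univ, Fintype.card_fin] at this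
    omega
  obtain ⟨u, v, huv⟩ := hedge
  let H' : SimpleGraph (Fin N) :=
    { Adj := fun x y => H.Adj x y ∧ ¬ ((x = u ∧ y = v) ∨ (x = v ∧ y = u))
      symm := ⟨fun x y h => ⟨H.adj_symm h.1, fun h' => h.2 (by
        rcases h' with h' | h'
        · exact Or.inr ⟨h'.2, h'.1⟩
        · exact Or.inl ⟨h'.2, h'.1⟩)⟩⟩
      loopless := ⟨fun x h => H.loopless.irrefl _ h.1⟩ }
  have hle : H' ≤ H := fun x y h => h.1
  have hT' : TF H' := fun x y z h1 h2 h3 => hH x y z h1.1 h2.1 h3.1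
  have hnot : ¬ AL H' K := by
    intro hA
    have := hlow (show H' ∈ {H : SimpleGraph (Fin N) | TF H ∧ AL H K} from ⟨hT', hA⟩) hle
    exact (this huv).2 (Or.inl ⟨rfl, rfl⟩)
  rw [AL] at hnot
  push Not at hnot
  obtain ⟨S, hS, hSK⟩ := hnot
  have hSH : ∀ x ∈ S, ∀ y ∈ S, H.Adj x y → (x = u ∧ y = v) ∨ (x = v ∧ y = u) := by
    intro x hx y hy hxy
    by_contra hcon
    exact hS x hx y hy ⟨hxy, hcon⟩
  have hmem : u ∈ S ∧ v ∈ S := by
    by_contra hcon
    have := hB S (by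
      intro x hx y hy hxy
      rcases hSH x hx y hy hxy with ⟨rfl, rfl⟩ | ⟨rfl, rfl⟩
      · exact hcon ⟨hx, hy⟩
      · exact hcon ⟨hy, hx⟩)
    omega
  have hc : K - 1 ≤ ((S.erase u).erase v).card := by
    have e1 := Finset.card_erase_of_mem hmem.1
    have e2 : v ∈ S.erase u := Finset.mem_erase.2 ⟨(H.ne_of_adj huv).symm, hmem.2⟩
    have e3 := Finset.card_erase_of_mem e2
    omega
  obtain ⟨e⟩ : Nonempty (Fin (K - 1) ↪ ((S.erase u).erase v : Finset (Fin N))) := by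
    apply Function.Embedding.nonempty_of_card_le
    rw [Fintype.card_fin, Fintype.card_coe]
    exact hc
  have hm : ∀ i, ((e i).1 ≠ v ∧ (e i).1 ≠ u) ∧ (e i).1 ∈ S := by
    intro i
    have h1 := (e i).2
    rw [Finset.mem_erase, Finset.mem_erase] at h1
    exact ⟨⟨h1.1, h1.2.1⟩, h1.2.2⟩
  refine ⟨H, u, v, fun i => (e i).1, hH, hB, huv, ?_, ?_, ?_⟩
  · intro i j hij
    exact e.injective (Subtype.ext hij)
  · intro i j hij
    rcases hSH _ (hm i).2 _ (hm j).2 hij with h | h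
    · exact (hm i).1.2 h.1
    · exact (hm i).1.1 h.1
  · intro i
    refine ⟨(hm i).1.2, (hm i).1.1, ?_, ?_⟩
    · intro h
      rcases hSH _ hmem.1 _ (hm i).2 h with h' | h'
      · exact (hm i).1.1 h'.2
      · exact (hm i).1.2 h'.2
    · intro h
      rcases hSH _ hmem.2 _ (hm i).2 h with h' | h'
      · exact (hm i).1.1 h'.2
      · exact (hm i).1.2 h'.2

end Pool.Agent.W_4f2e6f_h25
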