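import Pool.Agent.W_4f2e6f_h25.T1.Cases
import Pool.Agent.W_4f2e6f_h25.T1.Far
import Pool.Agent.W_4f2e6f_h25.T1.Hmin

/-!
Windows of any length: the inequality of Xu, Xie and Radziszowski improved by one.
-/

set_option autoImplicit false

namespace Pool.Agent.W_4f2e6f_h25

open Pool.Agent.W_MP_4f2e6f_h52

/-- `Good` below the Ramsey number -/
theorem lt_R (R : ℕ → ℕ) (hR : ∀ t : ℕ, R t = sInf {n : ℕ | ∀ G : SimpleGraph (Fin n),
    ¬ G.CliqueFree 3 ∨ ¬ Gᶜ.CliqueFree t}) (t n : ℕ) : n < R t ↔ Good n t := by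
  have hset : ∀ t n : ℕ, n ∈ {n : ℕ | ∀ G : SimpleGraph (Fin n),
      ¬ G.CliqueFree 3 ∨ ¬ Gᶜ.CliqueFree t} ↔ ¬ Good n t := by
    intro t n
    rw [Set.mem_setOf_eq, Good]
    push Not
    exact forall_congr' fun G => imp_iff_not_or.symm
  constructor
  · intro h
    by_contra hng
    rw [hR] at h
    exact Nat.notMem_of_lt_sInf h ((hset t n).2 hng)
  · intro h
    by_contra hlt
    push Not at hlt
    have hne : {n : ℕ | ∀ G : SimpleGraph (Fin n),
        ¬ G.CliqueFree 3 ∨ ¬ Gᶜ.CliqueFree t}.Nonempty := by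
      obtain ⟨N, hN⟩ := not_good_large t
      exact ⟨N, (hset t N).2 hN⟩
    have hmem := Nat.sInf_mem hne
    rw [← hR t] at hmem
    exact (hset t _).1 hmem (good_mono h hlt)

/-- the graph with one edge on `K + 1` vertices -/
theorem good_edge (K : ℕ) (hK : 1 ≤ K) : Good (K + 1) (K + 1) := by
  classical
  obtain ⟨k, rfl⟩ : ∃ k, K = k + 1 := ⟨K - 1, by omega⟩
  let E : SimpleGraph (Fin (k + 1 + 1)) :=
    { Adj := fun x y => (x = 0 ∧ y = 1) ∨ (x = 1 ∧ y = 0)
      symm := ⟨fun x y h => by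
        rcases h with h | h
        · exact Or.inr ⟨h.2, h.1⟩
        · exact Or.inl ⟨h.2, h.1⟩⟩
      loopless := ⟨fun x h => by
        rcases h with h | h
        · rw [h.1] at h
          exact absurd h.2 (by simp)
        · rw [h.1] at h
          exact absurd h.2 (by simp)⟩ }
  have h01 : (0 : Fin (k + 1 + 1)) ≠ 1 := by simp
  refine ⟨E, (TF_iff _).2 ?_, (AL_iff _ _).2 ?_⟩
  · rintro a b c (⟨rfl, rfl⟩ | ⟨rfl, rfl⟩) (⟨h1, h2⟩ | ⟨h1, h2⟩) h3
    · exact h01 h1.symm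
    · subst h2
      exact E.loopless.irrefl _ h3
    · subst h2
      exact E.loopless.irrefl _ h3
    · exact h01 h1
  · intro S hS
    by_contra hcon
    push Not at hcon
    have h1 : S = Finset.univ := by
      apply Finset.eq_univ_of_card
      rw [Fintype.card_fin]
      have := Finset.card_le_univ S
      rw [Fintype.card_fin] at this
      omega
    rw [h1] at hS
    exact hS 0 (Finset.mem_univ _) 1 (Finset.mem_univ _) (Or.inl ⟨rfl, rfl⟩)

/-- the sum of `K` consecutive differences is at least `R(3,K+1) + K`, from some point on -/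
theorem t1 (R : ℕ → ℕ) (hR : ∀ t : ℕ, R t = sInf {n : ℕ | ∀ G : SimpleGraph (Fin n),
    ¬ G.CliqueFree 3 ∨ ¬ Gᶜ.CliqueFree t}) (K s : ℕ) (hK : 1 ≤ K) (hs : 2 * K ^ 2 + 20 ≤ s) :
    R s + R (K + 1) + K ≤ R (s + K) := by
  have hbig := rlb R hR K s hs
  have h1 : K + 1 < R (K + 1) := (lt_R R hR _ _).2 (good_edge K hK)
  obtain ⟨H, u, v, h, hH, hB, huv, hh, hhh, hhu⟩ := hmin K (R (K + 1) - 1) hK
    ((lt_R R hR _ _).1 (by omega)) (by omega)
  obtain ⟨G, g1, g2⟩ := (lt_R R hR s (R s - 1)).1 (by omega)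
  obtain ⟨a, rfl⟩ : ∃ a, s = a + 1 := ⟨s - 1, by omega⟩
  have key := stepT G H a K ((TF_iff _).1 g1) ((AL_iff _ _).1 g2) hH hB
    (by rw [Fintype.card_fin]; omega) u v huv (K - 1)
    (by rw [Fintype.card_fin]; omega) h hh hhh hhu
  rw [Fintype.card_fin, Fintype.card_fin] at key
  have e : a + K + 1 = a + 1 + K := by omega
  rw [e] at key
  have h2 := (lt_R R hR _ _).2 key
  omega

end Pool.Agent.W_4f2e6f_h25
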