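import Pool.Agent.W_MP_4f2e6f_h52.Ram

/-!
The classical step: for two vertices at distance at least four add the edge between them and a new
vertex joined to both neighbourhoods.  Iterated over a family of pairs.
-/

set_option autoImplicit false

namespace Pool.Agent.W_4f2e6f_h25

open Pool.Agent.W_MP_4f2e6f_h52

/-- one more vertex, joined to the neighbours of `a` and of `b`, and the edge `a b` -/
def addV {V : Type} (F : SimpleGraph V) (a b : V) (hab : a ≠ b) : SimpleGraph (Option V) where
  Adj x y := match x, y with
    | none, none => False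
    | none, some y => F.Adj a y ∨ F.Adj b y
    | some x, none => F.Adj a x ∨ F.Adj b x
    | some x, some y => F.Adj x y ∨ (x = a ∧ y = b) ∨ (x = b ∧ y = a)
  symm := ⟨fun x y h => by
    rcases x with _ | x <;> rcases y with _ | y
    · exact h
    · exact h
    · exact h
    · rcases h with h | h | h
      · exact Or.inl (F.adj_symm h)
      · exact Or.inr (Or.inr ⟨h.2, h.1⟩)
      · exact Or.inr (Or.inl ⟨h.2, h.1⟩)⟩
  loopless := ⟨fun x h => by
    rcases x with _ | x
    · exact h
    · rcases h with h | h | h
      · exact F.loopless.irrefl _ h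
      · exact hab (h.1.symm.trans h.2)
      · exact hab (h.2.symm.trans h.1)⟩

theorem addV_some {V : Type} {F : SimpleGraph V} {a b : V} {hab : a ≠ b} {x y : V} :
    (addV F a b hab).Adj (some x) (some y) ↔ F.Adj x y ∨ (x = a ∧ y = b) ∨ (x = b ∧ y = a) :=
  Iff.rfl

theorem addV_none {V : Type} {F : SimpleGraph V} {a b : V} {hab : a ≠ b} {y : V} :
    (addV F a b hab).Adj none (some y) ↔ F.Adj a y ∨ F.Adj b y :=
  Iff.rfl

theorem addV_none' {V : Type} {F : SimpleGraph V} {a b : V} {hab : a ≠ b} {y : V} :
    (addV F a b hab).Adj (some y) none ↔ F.Adj a y ∨ F.Adj b y :=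
  Iff.rfl

theorem addV_nn {V : Type} {F : SimpleGraph V} {a b : V} {hab : a ≠ b} :
    ¬ (addV F a b hab).Adj none none := fun h => h

theorem addV_TF {V : Type} (F : SimpleGraph V) (a b : V) (hab : a ≠ b) (hF : TF F)
    (hnab : ¬ F.Adj a b) (hfar : ∀ x y, F.Adj a x → F.Adj b y → x ≠ y ∧ ¬ F.Adj x y) :
    TF (addV F a b hab) := by
  -- no triangle through the new vertex
  have key : ∀ x y : V, (F.Adj a x ∨ F.Adj b x) → (F.Adj a y ∨ F.Adj b y) →
      ¬ (addV F a b hab).Adj (some x) (some y) := by
    intro x y hx hy hxy
    rw [addV_some] at hxy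
    rcases hxy with h | h | h
    · rcases hx with hx | hx <;> rcases hy with hy | hy
      · exact hF _ _ _ hx h hy
      · exact (hfar x y hx hy).2 h
      · exact (hfar y x hy hx).2 (F.adj_symm h)
      · exact hF _ _ _ hx h hy
    · obtain ⟨rfl, rfl⟩ := h
      rcases hx with hx | hx
      · exact F.loopless.irrefl _ hx
      · exact hnab (F.adj_symm hx)
    · obtain ⟨rfl, rfl⟩ := h
      rcases hx with hx | hx
      · exact hnab hx
      · exact F.loopless.irrefl _ hx
  -- no common neighbour of `a` and `b`
  have key2 : ∀ x : V, F.Adj a x → ¬ F.Adj b x := fun x h1 h2 => (hfar x x h1 h2).1 rfl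
  intro x y z hxy hyz hxz
  rcases x with _ | x <;> rcases y with _ | y <;> rcases z with _ | z
  · exact addV_nn hxy
  · exact addV_nn hxy
  · exact addV_nn hxz
  · exact key y z hxy hxz hyz
  · exact addV_nn hyz
  · exact key x z hxy hyz hxz
  · exact key x y hxz hyz hxy
  · rw [addV_some] at hxy hyz hxz
    rcases hxy with h1 | h1 | h1 <;> rcases hyz with h2 | h2 | h2 <;>
      rcases hxz with h3 | h3 | h3
    all_goals first
      | exact hF _ _ _ h1 h2 h3
      | (obtain ⟨rfl, rfl⟩ := h1; obtain ⟨h2, -⟩ := h2; exact hab h2)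
      | (obtain ⟨rfl, rfl⟩ := h1; obtain ⟨h2, -⟩ := h2; exact hab h2.symm)
      | (obtain ⟨rfl, rfl⟩ := h1; obtain ⟨h3, h3'⟩ := h3; exact hab h3)
      | (obtain ⟨rfl, rfl⟩ := h1; obtain ⟨h3, h3'⟩ := h3; exact hab h3.symm)
      | (obtain ⟨rfl, rfl⟩ := h1; obtain ⟨h3, h3'⟩ := h3; subst h3'; exact F.loopless.irrefl _ h2)
      | (obtain ⟨rfl, rfl⟩ := h1; obtain ⟨h2, h2'⟩ := h2; subst h2'; exact F.loopless.irrefl _ h3)
      | (obtain ⟨rfl, rfl⟩ := h2; obtain ⟨h3, h3'⟩ := h3; exact hab h3')
      | (obtain ⟨rfl, rfl⟩ := h2; obtain ⟨h3, h3'⟩ := h3; exact hab h3'.symm)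
      | (obtain ⟨rfl, rfl⟩ := h2; obtain ⟨h3, h3'⟩ := h3; subst h3; exact F.loopless.irrefl _ h1)
      | (obtain ⟨rfl, rfl⟩ := h1; exact key2 _ h3 h2)
      | (obtain ⟨rfl, rfl⟩ := h1; exact key2 _ h2 h3)
      | (obtain ⟨rfl, rfl⟩ := h2; exact key2 _ (F.adj_symm h1) (F.adj_symm h3))
      | (obtain ⟨rfl, rfl⟩ := h2; exact key2 _ (F.adj_symm h3) (F.adj_symm h1))
      | (obtain ⟨rfl, rfl⟩ := h3; exact key2 _ h1 (F.adj_symm h2))
      | (obtain ⟨rfl, rfl⟩ := h3; exact key2 _ (F.adj_symm h2) h1)

theorem addV_AL {V : Type} (F : SimpleGraph V) (a b : V) (hab : a ≠ b) (c : ℕ) (hA : AL F c) :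
    AL (addV F a b hab) c := by
  classical
  intro S hS
  -- the old part of an independent set
  let T : Finset V := Finset.eraseNone S
  have hT : ∀ x, x ∈ T ↔ some x ∈ S := fun x => Finset.mem_eraseNone
  have hTind : ∀ x ∈ T, ∀ y ∈ T, ¬ F.Adj x y := by
    intro x hx y hy h
    exact hS _ ((hT x).1 hx) _ ((hT y).1 hy) (Or.inl h)
  by_cases hn : none ∈ S
  · have hcard : S.card ≤ T.card + 1 := by
      have h1 : S ⊆ insert none (T.map Function.Embedding.some) := by
        intro x hx
        rcases x with _ | x
        · exact Finset.mem_insert_self _ _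
        · exact Finset.mem_insert_of_mem (Finset.mem_map_of_mem _ ((hT x).2 hx))
      refine (Finset.card_le_card h1).trans ((Finset.card_insert_le _ _).trans ?_)
      rw [Finset.card_map]
    have hno : ∀ x ∈ T, ¬ (F.Adj a x ∨ F.Adj b x) := by
      intro x hx h
      exact hS _ hn _ ((hT x).1 hx) h
    by_cases ha : a ∈ T
    · have hb : b ∉ T := by
        intro hb
        exact hS _ ((hT a).1 ha) _ ((hT b).1 hb) (Or.inr (Or.inl ⟨rfl, rfl⟩))
      have := hA (insert b T) (by
        intro x hx y hy h
        rw [Finset.mem_insert] at hx hy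
        rcases hx with rfl | hx <;> rcases hy with rfl | hy
        · exact F.loopless.irrefl _ h
        · exact hno y hy (Or.inr h)
        · exact hno x hx (Or.inr (F.adj_symm h))
        · exact hTind x hx y hy h)
      rw [Finset.card_insert_of_notMem hb] at this
      omega
    · have := hA (insert a T) (by
        intro x hx y hy h
        rw [Finset.mem_insert] at hx hy
        rcases hx with rfl | hx <;> rcases hy with rfl | hy
        · exact F.loopless.irrefl _ h
        · exact hno y hy (Or.inl h)
        · exact hno x hx (Or.inl (F.adj_symm h))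
        · exact hTind x hx y hy h)
      rw [Finset.card_insert_of_notMem ha] at this
      omega
  · have hcard : S.card ≤ T.card := by
      have h1 : S ⊆ T.map Function.Embedding.some := by
        intro x hx
        rcases x with _ | x
        · exact absurd hx hn
        · exact Finset.mem_map_of_mem _ ((hT x).2 hx)
      refine (Finset.card_le_card h1).trans ?_
      rw [Finset.card_map]
    exact hcard.trans (hA T hTind)

/-- the iterated step -/
theorem iter (m : ℕ) : ∀ (V : Type) [Finite V] (F : SimpleGraph V) (c : ℕ) (g h : Fin m → V),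
    TF F → AL F c → Function.Injective g → Function.Injective h → (∀ i j, g i ≠ h j) →
    (∀ i j, ¬ F.Adj (g i) (g j)) → (∀ i j, ¬ F.Adj (h i) (h j)) → (∀ i j, ¬ F.Adj (g i) (h j)) →
    (∀ i x y, F.Adj (g i) x → F.Adj (h i) y → x ≠ y ∧ ¬ F.Adj x y) →
    Good (Nat.card V + m) (c + 1) := by
  induction m with
  | zero =>
    intro V _ F c g h hF hA _ _ _ _ _ _ _
    exact good_of_type _ _ (by omega) F hF hA
  | succ m ih =>
    intro V _ F c g h hF hA hg hh hne hgg hhh hgh hfar
    have h0 : g 0 ≠ h 0 := hne 0 0
    have key := ih (Option V) (addV F (g 0) (h 0) h0) c (fun i => some (g i.succ))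
      (fun i => some (h i.succ)) (addV_TF F _ _ h0 hF (hgh 0 0) (hfar 0)) (addV_AL F _ _ h0 c hA)
      (fun i j hij => Fin.succ_injective _ (hg (Option.some_injective _ hij)))
      (fun i j hij => Fin.succ_injective _ (hh (Option.some_injective _ hij)))
      (fun i j hij => hne _ _ (Option.some_injective _ hij))
      (fun i j hij => by
        rw [addV_some] at hij
        rcases hij with hij | hij | hij
        · exact hgg _ _ hij
        · exact hne _ _ hij.2
        · exact hne _ _ hij.1)
      (fun i j hij => by
        rw [addV_some] at hij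
        rcases hij with hij | hij | hij
        · exact hhh _ _ hij
        · exact hne _ _ hij.1.symm
        · exact hne _ _ hij.2.symm)
      (fun i j hij => by
        rw [addV_some] at hij
        rcases hij with hij | hij | hij
        · exact hgh _ _ hij
        · exact absurd (hg hij.1) (Fin.succ_ne_zero i)
        · exact hne _ _ hij.1)
      (fun i x y hx hy => by
        -- the neighbours of the later pairs are the old ones
        have hx' : ∃ x', x = some x' ∧ F.Adj (g i.succ) x' := by
          rcases x with _ | x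
          · rcases hx with hx | hx
            · exact absurd hx (hgg _ _)
            · exact absurd (F.adj_symm hx) (hgh _ _)
          · rcases hx with hx | hx | hx
            · exact ⟨x, rfl, hx⟩
            · exact absurd (hg hx.1) (Fin.succ_ne_zero i)
            · exact absurd hx.1 (hne _ _)
        have hy' : ∃ y', y = some y' ∧ F.Adj (h i.succ) y' := by
          rcases y with _ | y
          · rcases hy with hy | hy
            · exact absurd hy (hgh _ _)
            · exact absurd hy (hhh _ _)
          · rcases hy with hy | hy | hy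
            · exact ⟨y, rfl, hy⟩
            · exact absurd hy.1.symm (hne _ _)
            · exact absurd (hh hy.1) (Fin.succ_ne_zero i)
        obtain ⟨x', rfl, hx1⟩ := hx'
        obtain ⟨y', rfl, hy1⟩ := hy'
        have hf := hfar i.succ x' y' hx1 hy1
        refine ⟨fun e => hf.1 (Option.some_injective _ e), ?_⟩
        intro hxy
        rw [addV_some] at hxy
        rcases hxy with hxy | hxy | hxy
        · exact hf.2 hxy
        · rw [hxy.1] at hx1
          exact hgg _ _ hx1
        · rw [hxy.1] at hx1
          exact hgh _ _ hx1)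
    have e : Nat.card (Option V) = Nat.card V + 1 := by
      rw [Finite.card_option]
    rw [e] at key
    have e2 : Nat.card V + 1 + m = Nat.card V + (m + 1) := by omega
    rwa [e2] at key

end Pool.Agent.W_4f2e6f_h25
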