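import Pool.Agent.W_4f2e6f_h25.T1.Dbl
import Pool.Agent.W_4f2e6f_h25.T1.Iter

/-!
One application of the double gadget, followed by the classical steps.
-/

set_option autoImplicit false

namespace Pool.Agent.W_4f2e6f_h25

open Pool.Agent.W_MP_4f2e6f_h52

section

variable {V W : Type}

/-- the core: four vertices of `G` and an edge of `H` -/
def core (c : Fin 4 → V) (u v : W) : Fin 6 → V ⊕ W :=
  ![Sum.inl (c 0), Sum.inl (c 1), Sum.inl (c 2), Sum.inl (c 3), Sum.inr u, Sum.inr v]

theorem core_inj (c : Fin 4 → V) (u v : W) (hc : Function.Injective c) (huv : u ≠ v) :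
    Function.Injective (core c u v) := by
  intro i j h
  fin_cases i <;> fin_cases j <;>
    first
      | rfl
      | (exfalso; simp [core, hc.eq_iff, huv, huv.symm] at h)

theorem mem_core (c : Fin 4 → V) (u v : W) (i : Fin 4) :
    Sum.inl (c i) ∈ Set.range (core c u v) := by
  fin_cases i
  · exact ⟨0, rfl⟩
  · exact ⟨1, rfl⟩
  · exact ⟨2, rfl⟩
  · exact ⟨3, rfl⟩

theorem range_inl (c : Fin 4 → V) (u v : W) (x : V)
    (h : (Sum.inl x : V ⊕ W) ∈ Set.range (core c u v)) : ∃ i, x = c i := by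
  obtain ⟨i, hi⟩ := h
  fin_cases i
  · exact ⟨0, (Sum.inl.inj hi).symm⟩
  · exact ⟨1, (Sum.inl.inj hi).symm⟩
  · exact ⟨2, (Sum.inl.inj hi).symm⟩
  · exact ⟨3, (Sum.inl.inj hi).symm⟩
  · exact absurd hi (by simp [core])
  · exact absurd hi (by simp [core])

theorem range_inr (c : Fin 4 → V) (u v : W) (y : W)
    (h : (Sum.inr y : V ⊕ W) ∈ Set.range (core c u v)) : y = u ∨ y = v := by
  obtain ⟨i, hi⟩ := h
  fin_cases i
  · exact absurd hi (by simp [core])
  · exact absurd hi (by simp [core])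
  · exact absurd hi (by simp [core])
  · exact absurd hi (by simp [core])
  · exact Or.inl (Sum.inr.inj hi).symm
  · exact Or.inr (Sum.inr.inj hi).symm

variable (G : SimpleGraph V) (H : SimpleGraph W) (c : Fin 4 → V) (u v : W)

theorem notH (x : V) : ¬ inH (tr (dsum G H) (core c u v) (Sum.inl x)) := by
  rintro (h | h) <;> rw [mem_tr] at h <;> exact h

theorem notG (y : W) : ¬ inG (tr (dsum G H) (core c u v) (Sum.inr y)) := by
  rintro (h | h | h | h) <;> rw [mem_tr] at h <;> exact h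

theorem trG0 (x : V) : (0 : Fin 6) ∈ tr (dsum G H) (core c u v) (Sum.inl x) ↔ G.Adj x (c 0) := by
  rw [mem_tr]; exact Iff.rfl
theorem trG1 (x : V) : (1 : Fin 6) ∈ tr (dsum G H) (core c u v) (Sum.inl x) ↔ G.Adj x (c 1) := by
  rw [mem_tr]; exact Iff.rfl
theorem trG2 (x : V) : (2 : Fin 6) ∈ tr (dsum G H) (core c u v) (Sum.inl x) ↔ G.Adj x (c 2) := by
  rw [mem_tr]; exact Iff.rfl
theorem trG3 (x : V) : (3 : Fin 6) ∈ tr (dsum G H) (core c u v) (Sum.inl x) ↔ G.Adj x (c 3) := by
  rw [mem_tr]; exact Iff.rfl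
theorem trH4 (y : W) : (4 : Fin 6) ∈ tr (dsum G H) (core c u v) (Sum.inr y) ↔ H.Adj y u := by
  rw [mem_tr]; exact Iff.rfl
theorem trH5 (y : W) : (5 : Fin 6) ∈ tr (dsum G H) (core c u v) (Sum.inr y) ↔ H.Adj y v := by
  rw [mem_tr]; exact Iff.rfl

theorem tr_empty_inl (x : V) (hx : ∀ i, ¬ G.Adj x (c i)) :
    tr (dsum G H) (core c u v) (Sum.inl x) = ∅ := by
  rw [Finset.eq_empty_iff_forall_notMem]
  intro i hi
  have h1 := notH G H c u v x
  fin_cases i
  · exact hx 0 ((trG0 G H c u v x).1 hi)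
  · exact hx 1 ((trG1 G H c u v x).1 hi)
  · exact hx 2 ((trG2 G H c u v x).1 hi)
  · exact hx 3 ((trG3 G H c u v x).1 hi)
  · exact h1 (Or.inl hi)
  · exact h1 (Or.inr hi)

theorem tr_empty_inr (y : W) (hu : ¬ H.Adj u y) (hv : ¬ H.Adj v y) :
    tr (dsum G H) (core c u v) (Sum.inr y) = ∅ := by
  rw [Finset.eq_empty_iff_forall_notMem]
  intro i hi
  have h1 := notG G H c u v y
  fin_cases i
  · exact h1 (Or.inl hi)
  · exact h1 (Or.inr (Or.inl hi))
  · exact h1 (Or.inr (Or.inr (Or.inl hi)))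
  · exact h1 (Or.inr (Or.inr (Or.inr hi)))
  · exact hu (H.adj_symm ((trH4 G H c u v y).1 hi))
  · exact hv (H.adj_symm ((trH5 G H c u v y).1 hi))

variable {adj : ℕ → ℕ} {cs : List (ℕ × List ℕ)} {tbl : List ℕ} {types P : Finset (Fin 6) → Prop}

/-- the new graph -/
noncomputable def newG (D : GadB adj cs tbl types P) :
    SimpleGraph ({w : V ⊕ W // w ∉ Set.range (core c u v)} ⊕ Fin 8) :=
  graph' (dsum G H) (core c u v) (grM 8 adj D.hs D.hl) (hitB tbl)

theorem newG_spec (D : GadB adj cs tbl types P) (a b : ℕ) (hG : TF G) (hA : AL G a) (hH : TF H)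
    (hB : AL H b) (hc : Function.Injective c) (huv : H.Adj u v)
    (h4 : ∀ w, w ∉ Set.range (core c u v) → types (tr (dsum G H) (core c u v) w))
    (hP : ∀ I, P I → ∀ i ∈ I, ∀ j ∈ I, ¬ (dsum G H).Adj (core c u v i) (core c u v j)) :
    TF (newG G H c u v D) ∧ AL (newG G H c u v D) (a + b) := by
  constructor
  · refine graph'_TF2 (dsum G H) (core c u v) (dsum_TF G H hG hH) _ (hitB tbl) types mixB ?_ h4
      ?_ ?_ ?_
    · intro x y z h1 h2 h3
      have h1 : (adj x).testBit y = true := h1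
      have h2 : (adj y).testBit z = true := h2
      have h3 : (adj x).testBit z = true := h3
      rw [D.tf x y z h1 h2] at h3
      exact Bool.noConfusion h3
    · rintro (x | x) (y | y) hxy hm
      · rcases hm with ⟨_, hm⟩ | ⟨hm, _⟩
        · exact notH G H c u v y hm
        · exact notH G H c u v x hm
      · exact hxy
      · exact hxy
      · rcases hm with ⟨hm, _⟩ | ⟨_, hm⟩
        · exact notG G H c u v x hm
        · exact notG G H c u v y hm
    · intro x A B hA hB hx hx'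
      exact D.c1 A hA B hB x hx hx'
    · intro x y A hA hxy hx hy
      have hy : (hmB tbl A).testBit y = true := hy
      rw [D.c2 A hA x y hxy hx] at hy
      exact Bool.noConfusion hy
  · have h := graph'_AL (dsum G H) (core c u v) (core_inj c u v hc (H.ne_of_adj huv)) (a + b) 0
      (dsum_AL G H a b hA hB) (grM 8 adj D.hs D.hl) (hitB tbl) types h4 (by
        intro S hS
        obtain ⟨I, h1, h2, h3⟩ := h3_gen2 6 8 0 adj cs (grM 8 adj D.hs D.hl) (fun x y h => h)
          (hmB tbl) types P D.hcs D.hgo S hS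
        exact ⟨I, hP I h1, h2, h3⟩)
    exact h

/-- the double gadget and the classical steps for `m` pairs -/
theorem newG_good [Fintype V] [Fintype W] (D : GadB adj cs tbl types P) (a b : ℕ) (hG : TF G) (hA : AL G a) (hH : TF H)
    (hB : AL H b) (hc : Function.Injective c) (huv : H.Adj u v)
    (h4 : ∀ w, w ∉ Set.range (core c u v) → types (tr (dsum G H) (core c u v) w))
    (hP : ∀ I, P I → ∀ i ∈ I, ∀ j ∈ I, ¬ (dsum G H).Adj (core c u v i) (core c u v j))
    (m : ℕ) (g : Fin m → V) (h : Fin m → W) (hg : Function.Injective g)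
    (hh : Function.Injective h) (hgg : ∀ i j, ¬ G.Adj (g i) (g j))
    (hhh : ∀ i j, ¬ H.Adj (h i) (h j)) (hgc : ∀ i k, g i ≠ c k ∧ ¬ G.Adj (g i) (c k))
    (hhu : ∀ i, h i ≠ u ∧ h i ≠ v ∧ ¬ H.Adj u (h i) ∧ ¬ H.Adj v (h i)) :
    Good (Fintype.card V + Fintype.card W + 2 + m) (a + b + 1) := by
  classical
  obtain ⟨h1, h2⟩ := newG_spec G H c u v D a b hG hA hH hB hc huv h4 hP
  have hgr : ∀ i, (Sum.inl (g i) : V ⊕ W) ∉ Set.range (core c u v) := by
    intro i hi
    obtain ⟨k, hk⟩ := range_inl c u v _ hi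
    exact (hgc i k).1 hk
  have hhr : ∀ i, (Sum.inr (h i) : V ⊕ W) ∉ Set.range (core c u v) := by
    intro i hi
    rcases range_inr c u v _ hi with hk | hk
    · exact (hhu i).1 hk
    · exact (hhu i).2.1 hk
  have hgt : ∀ i, tr (dsum G H) (core c u v) (Sum.inl (g i)) = ∅ := fun i =>
    tr_empty_inl G H c u v _ fun k => (hgc i k).2
  have hht : ∀ i, tr (dsum G H) (core c u v) (Sum.inr (h i)) = ∅ := fun i =>
    tr_empty_inr G H c u v _ (hhu i).2.2.1 (hhu i).2.2.2
  have key := iter m _ (newG G H c u v D) (a + b) (fun i => Sum.inl ⟨Sum.inl (g i), hgr i⟩)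
    (fun i => Sum.inl ⟨Sum.inr (h i), hhr i⟩) h1 h2
    (fun i j hij => hg (Sum.inl.inj (Subtype.mk.inj (Sum.inl.inj hij))))
    (fun i j hij => hh (Sum.inr.inj (Subtype.mk.inj (Sum.inl.inj hij))))
    (fun i j hij => Sum.inl_ne_inr (Subtype.mk.inj (Sum.inl.inj hij)))
    (fun i j hij => hgg i j hij) (fun i j hij => hhh i j hij) (fun i j hij => hij) (by
      rintro i x y hx hy
      have e1 : ∃ x', x = Sum.inl x' ∧ ∃ z, x'.1 = Sum.inl z := by
        rcases x with ⟨x | x, hx'⟩ | z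
        · exact ⟨_, rfl, x, rfl⟩
        · exact absurd hx id
        · have hx : (hmB tbl (tr (dsum G H) (core c u v) (Sum.inl (g i)))).testBit z = true := hx
          rw [hgt, D.c3 z] at hx
          exact Bool.noConfusion hx
      have e2 : ∃ y', y = Sum.inl y' ∧ ∃ z, y'.1 = Sum.inr z := by
        rcases y with ⟨y | y, hy'⟩ | z
        · exact absurd hy id
        · exact ⟨_, rfl, y, rfl⟩
        · have hy : (hmB tbl (tr (dsum G H) (core c u v) (Sum.inr (h i)))).testBit z = true := hy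
          rw [hht, D.c3 z] at hy
          exact Bool.noConfusion hy
      obtain ⟨⟨x', hx'⟩, rfl, z, hz⟩ := e1
      obtain ⟨⟨y', hy'⟩, rfl, z', hz'⟩ := e2
      simp only at hz hz'
      subst hz hz'
      refine ⟨fun h => Sum.inl_ne_inr (Subtype.mk.inj (Sum.inl.inj h)), fun h => h⟩)
  have hcard := card_graph' (q := 8) (core c u v) (core_inj c u v hc (H.ne_of_adj huv))
  rw [Fintype.card_sum] at hcard
  refine good_mono key ?_
  omega

end

end Pool.Agent.W_4f2e6f_h25
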